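import Mathlib
import Pool.Agent.Helper70.HA.R2
import Pool.Agent.Helper70.HA.C3

/-!
# Cyclic covers of degree 2, 3, 4, 5, 7 with arbitrary multiplicities: definitions
-/

namespace Pool.Agent.Helper70.HB

open Pool.Agent.Helper70.HA

/-- `d` times the weight of the hyperplane `e` in the `j`-th eigenspace: `0` if `d ∣ j * m e`, and
`d - (j * m e mod d)` otherwise. -/
def wt {E : Type*} (d : ℕ) (m : E → ℕ) (j : ℕ) (e : E) : ℕ :=
  if d ∣ j * m e then 0 else d - (j * m e) % d

/-- A good partition; only the exponent of the distinguished member is prime to `d`. -/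
def Good2 {E : Type*} [DecidableEq E] (d : ℕ) (m : E → ℕ) (r : Finset E → ℕ) (X : Finset E) :
    Prop :=
  ∃ P : Finpartition X, (∀ p ∈ P.parts, d ∣ ∑ e ∈ p, m e) ∧
    (∀ G ⊆ P.parts, G.Nonempty → ∑ p ∈ G, r p < r (G.sup id) + G.card) ∧
    ∃ p ∈ P.parts, ∃ e ∈ p, r (p.erase e) < r p ∧ (m e).Coprime d

/-- The multiset `S` of natural numbers is a sum of multisets of sum `d`. -/
def Dec (d : ℕ) (S : Multiset ℕ) : Prop :=
  ∃ L : Multiset (Multiset ℕ), L.sum = S ∧ ∀ B ∈ L, B.sum = d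

end Pool.Agent.Helper70.HB
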