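import Mathlib
import Pool.Agent.Helper98.KA.NSide3

namespace Pool.Agent.Helper70.HB

open MvPolynomial Module Pool.Agent.Helper98.KA

/-- The core estimate with general weights `1 - a e / d`. -/
theorem nside3 {k : Type*} [Field k] {m n : ℕ} (hn : 1 ≤ n) {d : ℕ} (hd : 1 ≤ d) {E : Type*}
    [Fintype E]
    (c : E → Fin (n + 1) → k) (hc0 : ∀ e, c e ≠ 0) (a : E → ℕ) (ha : ∀ e, 1 ≤ a e ∧ a e < d)
    (hklt : ∀ S : Finset E, S.Nonempty →
      finrank k (Submodule.span k (c '' (S : Set E))) ≤ n →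
      ∑ e ∈ S, (d - a e) < d * finrank k (Submodule.span k (c '' (S : Set E))))
    (hw : d * (n + 1) ≤ ∑ e, (d - a e))
    (F : Fin (n + 1) → MvPolynomial (Fin m) k)
    (hcop : ∀ p, Prime p → ∃ i, ¬ p ∣ F i)
    (hinj : ∀ v, lin F v = 0 → v = 0)
    (ρ : Fin (n + 1) → Option (Fin m))
    (hdet : (Matrix.of fun i j => rowOp (ρ i) (F j) :
        Matrix (Fin (n + 1)) (Fin (n + 1)) (MvPolynomial (Fin m) k)).det ≠ 0)
    (G : MvPolynomial (Fin m) k) (hG : G ^ d = ∏ e, lin F (c e) ^ a e) : False := by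
  classical
  set Dt := (Matrix.of fun i j => rowOp (ρ i) (F j) :
        Matrix (Fin (n + 1)) (Fin (n + 1)) (MvPolynomial (Fin m) k)).det with hDt
  have hlc : ∀ e, lin F (c e) ≠ 0 := fun e h => hc0 e (hinj _ h)
  have hG0 : G ≠ 0 := by
    intro h0
    rw [h0, zero_pow (by omega)] at hG
    obtain ⟨e, _, he⟩ := Finset.prod_eq_zero_iff.mp hG.symm
    exact hlc e (pow_eq_zero_iff (by have := (ha e).1; omega) |>.mp he)
  have hdQ : (0 : ℚ) < d := by exact_mod_cast (by omega : 0 < d)
  have hwt : ∀ e : E, 0 < (1 - (a e : ℚ) / d) := by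
    intro e
    have h3 : (a e : ℚ) < d := by exact_mod_cast (ha e).2
    have h4 : (a e : ℚ) / d < 1 := (div_lt_one hdQ).mpr h3
    linarith
  have hwd : ∀ S : Finset E, ((∑ e ∈ S, (d - a e) : ℕ) : ℚ) =
      d * ∑ e ∈ S, (1 - (a e : ℚ) / d) := by
    intro S
    rw [Finset.mul_sum]
    push_cast
    apply Finset.sum_congr rfl
    intro e _
    rw [Nat.cast_sub (ha e).2.le]
    field_simp
  have hklt' : ∀ S : Finset E, S.Nonempty →
      finrank k (Submodule.span k (c '' (S : Set E))) ≤ n →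
      ∑ e ∈ S, (1 - (a e : ℚ) / d) < (finrank k (Submodule.span k (c '' (S : Set E))) : ℚ) := by
    intro S hS hS'
    have h := hklt S hS hS'
    have h' : ((∑ e ∈ S, (d - a e) : ℕ) : ℚ) <
        d * (finrank k (Submodule.span k (c '' (S : Set E))) : ℚ) := by exact_mod_cast h
    rw [hwd] at h'
    exact lt_of_mul_lt_mul_left h' hdQ.le
  have hw' : (n : ℚ) + 1 ≤ ∑ e : E, (1 - (a e : ℚ) / d) := by
    have h' : (d : ℚ) * ((n : ℚ) + 1) ≤ ((∑ e, (d - a e) : ℕ) : ℚ) := by exact_mod_cast hw
    rw [hwd] at h'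
    exact le_of_mul_le_mul_left h' hdQ
  have hfr : finrank k (Fin (n + 1) → k) = n + 1 := finrank_fin_fun k
  -- weighted sums
  have hsum : ∀ (T : E → ℕ) (g : ℕ), d * g = ∑ e, a e * T e →
      ∑ e : E, (1 - (a e : ℚ) / d) * (T e : ℚ) = ((∑ e, T e : ℕ) : ℚ) - (g : ℚ) := by
    intro T g hTg
    have h1 : (d : ℚ) * g = ∑ e, (a e : ℚ) * T e := by exact_mod_cast hTg
    have h2 : (g : ℚ) = ∑ e, (a e : ℚ) / d * T e := by
      have h3 : ∑ e, (a e : ℚ) / d * T e = (∑ e, (a e : ℚ) * T e) / d := by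
        rw [Finset.sum_div]
        apply Finset.sum_congr rfl
        intro e _
        ring
      rw [h3, ← h1]
      field_simp
    rw [h2]
    push_cast
    rw [← Finset.sum_sub_distrib]
    apply Finset.sum_congr rfl
    intro e _
    ring
  set P := ∏ e, lin F (c e) with hP
  have hP0 : P ≠ 0 := Finset.prod_ne_zero_iff.mpr fun e _ => hlc e
  have hDG0 : Dt * G ≠ 0 := mul_ne_zero hdet hG0
  -- divisibility
  have hdvd : P ∣ Dt * G := by
    rw [UniqueFactorizationMonoid.dvd_iff_emultiplicity_le hP0]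
    intro p hp
    let f : (Fin (n + 1) → k) → ℕ∞ := fun v => emultiplicity p (lin F v)
    have hf0 : f 0 = ⊤ := by
      simp only [f, map_zero]
      exact emultiplicity_zero p
    have hfin : ∀ a : MvPolynomial (Fin m) k, a ≠ 0 → FiniteMultiplicity p a := fun a ha =>
      FiniteMultiplicity.of_prime_left hp ha
    have hfne : ∀ v, v ≠ 0 → f v ≠ ⊤ := by
      intro v hv
      exact finiteMultiplicity_iff_emultiplicity_ne_top.mp (hfin _ fun h => hv (hinj _ h))
    have hfadd : ∀ u v, min (f u) (f v) ≤ f (u + v) := by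
      intro u v
      simp only [f, map_add]
      exact min_le_emultiplicity_add
    have hfsmul : ∀ (a : k) v, f v ≤ f (a • v) := by
      intro a v
      simp only [f, map_smul]
      apply emultiplicity_le_emultiplicity_of_dvd_right
      rw [smul_eq_C_mul]
      exact Dvd.intro_left _ rfl
    have hfz : ∃ v, f v = 0 := by
      obtain ⟨a, ha⟩ := hcop p hp
      refine ⟨Pi.single a 1, ?_⟩
      simp only [f, lin_single]
      exact emultiplicity_eq_zero.mpr ha
    obtain ⟨b, hb⟩ := orth_basis (n + 1) hfr f hf0 hfne hfadd hfsmul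
    let τ : Fin (n + 1) → ℕ := fun a => multiplicity p (lin F (b a))
    have hlb : ∀ a, lin F (b a) ≠ 0 := fun a h => b.ne_zero a (hinj _ h)
    have hτ : ∀ a, f (b a) = τ a := fun a =>
      (hfin _ (hlb a)).emultiplicity_eq_multiplicity
    let T : E → ℕ := fun e => multiplicity p (lin F (c e))
    have hT : ∀ e, f (c e) = T e := fun e =>
      (hfin _ (hlc e)).emultiplicity_eq_multiplicity
    have hcomb := comb_ineq n c (fun e : E => (1 - (a e : ℚ) / d)) hwt hklt' f hf0 hfadd
      hfsmul hfz b hb T hT τ hτ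
    let g : ℕ := multiplicity p G
    have hg : emultiplicity p G = g := (hfin _ hG0).emultiplicity_eq_multiplicity
    have hgT : d * g = ∑ e, a e * T e := by
      have h1 := congrArg (emultiplicity p) hG
      rw [emultiplicity_pow hp, Finset.emultiplicity_prod hp, hg] at h1
      have h2 : ∀ e, emultiplicity p (lin F (c e) ^ a e) = ((a e * T e : ℕ) : ℕ∞) := by
        intro e
        rw [emultiplicity_pow hp]
        have := hT e
        simp only [f] at this
        rw [this]
        push_cast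
        rfl
      simp only [h2] at h1
      exact_mod_cast h1
    rw [hsum T g hgT] at hcomb
    have hPm : emultiplicity p P = ((∑ e, T e : ℕ) : ℕ∞) := by
      rw [hP, Finset.emultiplicity_prod hp]
      push_cast
      apply Finset.sum_congr rfl
      intro e _
      exact hT e
    rw [hPm, emultiplicity_mul hp, hg]
    rcases hcomb with ⟨_, h0⟩ | hlt
    · have h0' : (∑ e, T e : ℕ) = g := by
        have : ((∑ e, T e : ℕ) : ℚ) = (g : ℚ) := by linarith
        exact_mod_cast this
      rw [h0']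
      exact le_add_self
    · have hlt' : (∑ e, T e : ℕ) < ∑ a, τ a + g := by
        have : ((∑ e, T e : ℕ) : ℚ) < ((∑ a, τ a : ℕ) : ℚ) + (g : ℚ) := by linarith
        exact_mod_cast this
      rcases Nat.eq_zero_or_pos (∑ a, τ a) with h00 | hpos
      · rw [h00] at hlt'
        refine le_trans ?_ (le_add_self : (g : ℕ∞) ≤ emultiplicity p Dt + g)
        exact_mod_cast (by omega : (∑ e, T e : ℕ) ≤ g)
      obtain ⟨S, hS⟩ : ∃ S, ∑ a, τ a = S + 1 := ⟨∑ a, τ a - 1, by omega⟩
      have hw' : ∀ a, ∃ w, lin F (b a) = p ^ τ a * w := fun a =>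
        pow_multiplicity_dvd p (lin F (b a))
      choose w hw' using hw'
      have h1 := pow_dvd_minor p hp.ne_zero ρ w τ S hS
      obtain ⟨u, hu, hdu⟩ := det_basis ρ F b
      have h2 : (Matrix.of fun i a => rowOp (ρ i) (p ^ τ a * w a) :
          Matrix (Fin (n + 1)) (Fin (n + 1)) (MvPolynomial (Fin m) k)) =
          (Matrix.of fun i a => rowOp (ρ i) (lin F (b a))) := by
        ext1 i a
        simp only [Matrix.of_apply, hw']
      rw [h2, hdu] at h1
      have h3 : p ^ S ∣ Dt := by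
        have hunit : IsUnit (C u : MvPolynomial (Fin m) k) := by
          apply IsUnit.map
          exact isUnit_iff_ne_zero.mpr hu
        exact (hunit.dvd_mul_left).mp h1
      have h4 : (S : ℕ∞) ≤ emultiplicity p Dt := le_emultiplicity_of_pow_dvd h3
      refine le_trans ?_ (add_le_add_left h4 (g : ℕ∞))
      exact_mod_cast (by omega : (∑ e, T e : ℕ) ≤ S + g)
  -- degrees
  obtain ⟨a0, ha0, hmax⟩ : ∃ a0, F a0 ≠ 0 ∧ ∀ a, (F a).totalDegree ≤ (F a0).totalDegree := by
    obtain ⟨a1, _, ha1⟩ := Finset.exists_max_image (Finset.univ : Finset (Fin (n + 1)))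
      (fun a => (F a).totalDegree) Finset.univ_nonempty
    have hne0 : ∀ a, F a ≠ 0 := by
      intro a h
      have h1 := hinj (Pi.single a 1) (by rw [lin_single, h])
      have h2 := congrFun h1 a
      rw [Pi.single_eq_same] at h2
      exact one_ne_zero h2
    exact ⟨a1, hne0 a1, fun a => ha1 a (Finset.mem_univ a)⟩
  set D := (F a0).totalDegree with hD
  have hdegle : ∀ v, (lin F v).totalDegree ≤ D := by
    intro v
    rw [lin_apply]
    refine (totalDegree_finsetSum _ _).trans (Finset.sup_le fun a _ => ?_)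
    exact (totalDegree_smul_le _ _).trans (hmax a)
  let f : (Fin (n + 1) → k) → ℕ∞ := fun v =>
    if v = 0 then ⊤ else ((D - (lin F v).totalDegree : ℕ) : ℕ∞)
  have hfv : ∀ v, v ≠ 0 → f v = ((D - (lin F v).totalDegree : ℕ) : ℕ∞) := fun v hv => if_neg hv
  have hf0 : f 0 = ⊤ := if_pos rfl
  have hfne : ∀ v, v ≠ 0 → f v ≠ ⊤ := by
    intro v hv
    rw [hfv v hv]
    exact ENat.natCast_ne_top _
  have hfadd : ∀ u v, min (f u) (f v) ≤ f (u + v) := by
    intro u v
    by_cases hu : u = 0
    · rw [hu, zero_add]; exact min_le_right _ _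
    by_cases hv : v = 0
    · rw [hv, add_zero]; exact min_le_left _ _
    by_cases huv : u + v = 0
    · rw [huv, hf0]; exact le_top
    rw [hfv u hu, hfv v hv, hfv _ huv, map_add]
    have h1 := totalDegree_add (lin F u) (lin F v)
    rcases le_total (lin F u).totalDegree (lin F v).totalDegree with h2 | h2
    · rw [max_eq_right h2] at h1
      refine (min_le_right _ _).trans ?_
      exact_mod_cast Nat.sub_le_sub_left h1 D
    · rw [max_eq_left h2] at h1
      refine (min_le_left _ _).trans ?_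
      exact_mod_cast Nat.sub_le_sub_left h1 D
  have hfsmul : ∀ (a : k) v, f v ≤ f (a • v) := by
    intro a v
    by_cases hav : a • v = 0
    · rw [hav, hf0]; exact le_top
    have hv : v ≠ 0 := by rintro rfl; exact hav (smul_zero a)
    rw [hfv _ hav, hfv v hv, map_smul]
    have h1 := totalDegree_smul_le a (lin F v)
    exact_mod_cast Nat.sub_le_sub_left h1 D
  have hfz : ∃ v, f v = 0 := by
    refine ⟨Pi.single a0 1, ?_⟩
    have hne : (Pi.single a0 1 : Fin (n + 1) → k) ≠ 0 := by
      intro h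
      have h2 := congrFun h a0
      rw [Pi.single_eq_same] at h2
      exact one_ne_zero h2
    rw [hfv _ hne, lin_single, ← hD, Nat.sub_self]
    rfl
  obtain ⟨b, hb⟩ := orth_basis (n + 1) hfr f hf0 hfne hfadd hfsmul
  let τ : Fin (n + 1) → ℕ := fun a => D - (lin F (b a)).totalDegree
  have hτ : ∀ a, f (b a) = τ a := fun a => hfv _ (b.ne_zero a)
  let T : E → ℕ := fun e => D - (lin F (c e)).totalDegree
  have hT : ∀ e, f (c e) = T e := fun e => hfv _ (hc0 e)
  have hcomb := comb_ineq n c (fun e : E => (1 - (a e : ℚ) / d)) hwt hklt' f hf0 hfadd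
    hfsmul hfz b hb T hT τ hτ
  have hcomb' : ∑ e : E, (1 - (a e : ℚ) / d) * (T e : ℚ) ≤ ((∑ a, τ a : ℕ) : ℚ) := by
    rcases hcomb with ⟨h1, h2⟩ | h
    · rw [h2]; positivity
    · exact h.le
  -- degree of the product
  have hpow : ∀ (Q : MvPolynomial (Fin m) k), Q ≠ 0 → ∀ t : ℕ,
      (Q ^ t).totalDegree = t * Q.totalDegree := by
    intro Q hQ t
    induction t with
    | zero => simp
    | succ t ih =>
      rw [pow_succ, totalDegree_mul_of_isDomain (pow_ne_zero _ hQ) hQ, ih]
      ring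
  have hprod : ∀ (h : E → MvPolynomial (Fin m) k), (∀ e, h e ≠ 0) → ∀ s : Finset E,
      (∏ e ∈ s, h e).totalDegree = ∑ e ∈ s, (h e).totalDegree := by
    intro h hh s
    induction s using Finset.induction_on with
    | empty => simp
    | insert a s ha ih =>
      rw [Finset.prod_insert ha, Finset.sum_insert ha, totalDegree_mul_of_isDomain (hh _)
        (Finset.prod_ne_zero_iff.mpr fun ab _ => hh _), ih]
  have hgdeg : d * G.totalDegree = ∑ e, a e * (lin F (c e)).totalDegree := by
    rw [← hpow G hG0, hG, hprod _ (fun e => pow_ne_zero _ (hlc e))]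
    apply Finset.sum_congr rfl
    intro e _
    exact hpow _ (hlc e) _
  have hPdeg : P.totalDegree = ∑ e, (lin F (c e)).totalDegree := hprod _ hlc _
  have h1 : ∑ e : E, (1 - (a e : ℚ) / d) * ((lin F (c e)).totalDegree : ℚ) =
      (P.totalDegree : ℚ) - (G.totalDegree : ℚ) := by
    rw [hPdeg]
    exact hsum (fun e => (lin F (c e)).totalDegree) G.totalDegree hgdeg
  have h2 : ∑ e : E, (1 - (a e : ℚ) / d) * ((lin F (c e)).totalDegree : ℚ) =
      (∑ e : E, (1 - (a e : ℚ) / d)) * D -
        ∑ e : E, (1 - (a e : ℚ) / d) * (T e : ℚ) := by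
    rw [Finset.sum_mul, ← Finset.sum_sub_distrib]
    apply Finset.sum_congr rfl
    intro e _
    have : ((T e : ℕ) : ℚ) = (D : ℚ) - ((lin F (c e)).totalDegree : ℚ) := by
      simp only [T]
      rw [Nat.cast_sub (hdegle _)]
    rw [this]
    ring
  obtain ⟨u, hu, hdu⟩ := det_basis ρ F b
  have hdetb : (Matrix.of fun i a => rowOp (ρ i) (lin F (b a)) :
      Matrix (Fin (n + 1)) (Fin (n + 1)) (MvPolynomial (Fin m) k)).det ≠ 0 := by
    rw [hdu]
    exact mul_ne_zero (by rw [Ne, C_eq_zero]; exact hu) hdet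
  have h3 := totalDegree_det_lt hn ρ (fun a => lin F (b a)) hdetb
  rw [hdu, totalDegree_mul_of_isDomain (by rw [Ne, C_eq_zero]; exact hu) hdet, totalDegree_C,
    zero_add] at h3
  have h4 : P.totalDegree ≤ Dt.totalDegree + G.totalDegree := by
    rw [← totalDegree_mul_of_isDomain hdet hG0]
    exact totalDegree_le_of_dvd_of_isDomain hdvd hDG0
  have h5 : ((∑ a, (lin F (b a)).totalDegree : ℕ) : ℚ) = ((n : ℚ) + 1) * D -
      ((∑ a, τ a : ℕ) : ℚ) := by
    push_cast
    have : ∀ a, ((τ a : ℕ) : ℚ) = (D : ℚ) - ((lin F (b a)).totalDegree : ℚ) := by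
      intro a
      simp only [τ]
      rw [Nat.cast_sub (hdegle _)]
    simp only [this]
    rw [Finset.sum_sub_distrib, Finset.sum_const, Finset.card_univ, Fintype.card_fin]
    simp
  have h6 : (P.totalDegree : ℚ) + 1 ≤ ((∑ a, (lin F (b a)).totalDegree : ℕ) : ℚ) +
      (G.totalDegree : ℚ) := by
    exact_mod_cast (by omega :
      P.totalDegree + 1 ≤ ∑ a, (lin F (b a)).totalDegree + G.totalDegree)
  rw [h5] at h6
  have h7 : ((n : ℚ) + 1) * D ≤ (∑ e : E, (1 - (a e : ℚ) / d)) * D :=
    mul_le_mul_of_nonneg_right hw' (by positivity)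
  linarith

end Pool.Agent.Helper70.HB
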