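import Mathlib
import Pool.Agent.Helper70.HB.NA
import Pool.Agent.Helper70.HB.Defs

namespace Pool.Agent.Helper70.HB

open MvPolynomial Module Pool.Agent.Helper98.KA Pool.Agent.Helper70.HA

/-- The sum of the residues of the exponents is divisible by `d`. -/
theorem nb_dvd {E : Type*} [Fintype E] {d : ℕ} (m : E → ℕ) (hsum : d ∣ ∑ e, m e) (j : ℕ) :
    d ∣ ∑ e, (j * m e) % d := by
  have h1 : (∑ e, (j * m e) % d) ≡ (∑ e, j * m e) [MOD d] := by
    rw [Nat.ModEq]
    exact (Finset.sum_nat_mod Finset.univ d fun e => j * m e).symm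
  have h2 : d ∣ ∑ e, j * m e := by
    rw [← Finset.mul_sum]
    exact hsum.mul_left j
  exact (Nat.ModEq.dvd_iff h1 dvd_rfl).2 h2

/-- A sum over all hyperplanes whose terms vanish outside a subset. -/
theorem nb_sum {E : Type*} [Fintype E] (p : E → Prop) [DecidablePred p] (f : E → ℕ)
    (hf : ∀ e, ¬ p e → f e = 0) : ∑ e, f e = ∑ e : {e // p e}, f e.1 := by
  rw [← Finset.sum_subtype (Finset.univ.filter p) (by simp) f]
  symm
  rw [Finset.sum_filter]
  refine Finset.sum_congr rfl fun e _ => ?_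
  by_cases h : p e
  · rw [if_pos h]
  · rw [if_neg h, hf e h]

/-- A product over all hyperplanes whose factors are trivial outside a subset. -/
theorem nb_prod {E L : Type*} [Fintype E] [CommMonoid L] (p : E → Prop) [DecidablePred p]
    (f : E → L) (hf : ∀ e, ¬ p e → f e = 1) : ∏ e, f e = ∏ e : {e // p e}, f e.1 := by
  rw [← Finset.prod_subtype (Finset.univ.filter p) (by simp) f]
  symm
  rw [Finset.prod_filter]
  refine Finset.prod_congr rfl fun e _ => ?_
  by_cases h : p e
  · rw [if_pos h]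
  · rw [if_neg h, hf e h]

/-- The root in the `j`-th eigenspace. -/
theorem nb_root {E L : Type*} [Fintype E] [Field L] {d : ℕ} (m : E → ℕ) (j : ℕ) (ev : E → L)
    (hev : ∀ e, ev e ≠ 0) (y : L) (hy : y ^ d = ∏ e, ev e ^ m e) :
    (y ^ j / ∏ e, ev e ^ ((j * m e) / d)) ^ d = ∏ e, ev e ^ ((j * m e) % d) := by
  have h1 : (y ^ j) ^ d = ∏ e, ev e ^ (j * m e) := by
    rw [← pow_mul, mul_comm j d, pow_mul, hy, ← Finset.prod_pow]
    refine Finset.prod_congr rfl fun e _ => ?_
    rw [← pow_mul, mul_comm (m e) j]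
  have h2 : (∏ e, ev e ^ ((j * m e) / d)) ^ d * ∏ e, ev e ^ ((j * m e) % d) =
      ∏ e, ev e ^ (j * m e) := by
    rw [← Finset.prod_pow, ← Finset.prod_mul_distrib]
    refine Finset.prod_congr rfl fun e _ => ?_
    rw [← pow_mul, ← pow_add, mul_comm _ d, Nat.div_add_mod]
  have h3 : (∏ e, ev e ^ ((j * m e) / d)) ^ d ≠ 0 :=
    pow_ne_zero _ (Finset.prod_ne_zero_iff.2 fun e _ => pow_ne_zero _ (hev e))
  rw [div_pow, h1, ← h2, mul_div_cancel_left₀ _ h3]

/-- Non-unirationality when some eigenspace carries a regular top form. -/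
theorem not_unirational_of_wt {k L : Type*} [Field k] [CharZero k] [Field L] [Algebra k L]
    {m' n : ℕ} [Algebra (MvPolynomial (Fin m') k) L]
    [IsScalarTower k (MvPolynomial (Fin m') k) L] [IsFractionRing (MvPolynomial (Fin m') k) L]
    (hn : 1 ≤ n) {d : ℕ} (hd : 2 ≤ d) {E : Type*} [Fintype E] [DecidableEq E]
    (l : E → Fin (n + 1) → k) (hl0 : ∀ e, l e ≠ 0) (m : E → ℕ) (hsum : d ∣ ∑ e, m e) (j : ℕ)
    (hklt : ∀ S : Finset E, S.Nonempty → rk l S ≤ n → ∑ e ∈ S, wt d m j e < d * rk l S)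
    (hw : d * (n + 1) ≤ ∑ e, wt d m j e)
    (x : Fin n → L) (hx : AlgebraicIndependent k x) (y : L)
    (hy : y ^ d = ∏ e, (algebraMap k L (l e 0) +
      ∑ i : Fin n, algebraMap k L (l e i.succ) * x i) ^ m e) : False := by
  classical
  obtain ⟨F, hF0, hF, hcop⟩ := exists_coprime_rep (k := k) (m := m') x
  set φ := algebraMap (MvPolynomial (Fin m') k) L with hφ
  have hφinj : Function.Injective φ := IsFractionRing.injective _ _
  have hφ0 : φ (F 0) ≠ 0 := by
    rw [Ne, map_eq_zero_iff φ hφinj]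
    exact hF0
  have hlin : ∀ v : Fin (n + 1) → k, φ (lin F v) = φ (F 0) *
      (algebraMap k L (v 0) + ∑ i : Fin n, algebraMap k L (v i.succ) * x i) := by
    intro v
    rw [lin_apply, map_sum, Fin.sum_univ_succ]
    have h1 : ∀ (a : k) (P : MvPolynomial (Fin m') k), φ (a • P) = algebraMap k L a * φ P := by
      intro a P
      rw [smul_eq_C_mul, map_mul]
      congr 1
      rw [IsScalarTower.algebraMap_apply k (MvPolynomial (Fin m') k) L]
      rfl
    rw [h1, mul_add, Finset.mul_sum]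
    congr 1
    · ring
    · apply Finset.sum_congr rfl
      intro i _
      rw [h1, hF i]
      ring
  have hinj : ∀ v, lin F v = 0 → v = 0 := by
    intro v hv
    have h := hlin v
    rw [hv, map_zero] at h
    exact linform_ne_zero hx v ((mul_eq_zero.mp h.symm).resolve_left hφ0)
  obtain ⟨ρ, hρ⟩ := exists_minor hφinj F hF0 x hx hF
  set ev : E → L := fun e => algebraMap k L (l e 0) +
    ∑ i : Fin n, algebraMap k L (l e i.succ) * x i with hevdef
  have hev : ∀ e, ev e ≠ 0 := fun e h => hl0 e (linform_ne_zero hx (l e) h)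
  -- the exponents
  have hmod : ∀ e, ¬ (¬ d ∣ j * m e) → (j * m e) % d = 0 := fun e h =>
    Nat.mod_eq_zero_of_dvd (not_not.1 h)
  obtain ⟨t, ht⟩ := nb_dvd m hsum j
  have ht' : ∑ e : {e // ¬ d ∣ j * m e}, (j * m e.1) % d = d * t := by
    rw [← ht]
    exact (nb_sum (fun e => ¬ d ∣ j * m e) (fun e => (j * m e) % d) hmod).symm
  set z : L := y ^ j / ∏ e, ev e ^ ((j * m e) / d) with hz
  have hzd : z ^ d = ∏ e : {e // ¬ d ∣ j * m e}, ev e.1 ^ ((j * m e.1) % d) := by
    rw [hz, nb_root m j ev hev y hy]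
    exact nb_prod (fun e => ¬ d ∣ j * m e) (fun e => ev e ^ ((j * m e) % d)) fun e h => by
      rw [hmod e h, pow_zero]
  -- the root is a polynomial
  obtain ⟨G, hG⟩ : ∃ G : MvPolynomial (Fin m') k,
      G ^ d = ∏ e : {e // ¬ d ∣ j * m e}, lin F (l e.1) ^ ((j * m e.1) % d) := by
    have hpow : (z * φ (F 0) ^ t) ^ d =
        φ (∏ e : {e // ¬ d ∣ j * m e}, lin F (l e.1) ^ ((j * m e.1) % d)) := by
      have h1 : ∀ e : {e // ¬ d ∣ j * m e}, φ (lin F (l e.1) ^ ((j * m e.1) % d)) =
          φ (F 0) ^ ((j * m e.1) % d) * ev e.1 ^ ((j * m e.1) % d) := by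
        intro e
        rw [map_pow, hlin, mul_pow]
      rw [map_prod, Finset.prod_congr rfl fun e _ => h1 e, Finset.prod_mul_distrib,
        Finset.prod_pow_eq_pow_sum, ht', mul_pow, hzd, ← pow_mul, mul_comm t d, mul_comm]
    have hint : IsIntegral (MvPolynomial (Fin m') k) ((z * φ (F 0) ^ t) ^ d) := by
      rw [hpow]
      exact isIntegral_algebraMap
    obtain ⟨G, hG⟩ := IsIntegrallyClosed.exists_algebraMap_eq_of_isIntegral_pow
      (by omega : 0 < d) hint
    refine ⟨G, ?_⟩
    apply hφinj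
    rw [map_pow, hG, hpow]
  have hwt : ∀ e : {e // ¬ d ∣ j * m e}, wt d m j e.1 = d - (j * m e.1) % d := by
    intro e
    unfold wt
    rw [if_neg e.2]
  refine nside3 (d := d) hn (by omega) (fun e : {e // ¬ d ∣ j * m e} => l e.1) (fun e => hl0 e.1)
    (fun e => (j * m e.1) % d) ?_ ?_ ?_ F hcop hinj ρ hρ G hG
  · intro e
    refine ⟨?_, Nat.mod_lt _ (by omega)⟩
    have h1 : (j * m e.1) % d ≠ 0 := fun h => e.2 (Nat.dvd_of_mod_eq_zero h)
    omega
  · intro S hS hSn
    have himg : l '' ((S.map (Function.Embedding.subtype _) : Finset E) : Set E) =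
        (fun e : {e // ¬ d ∣ j * m e} => l e.1) '' (S : Set {e // ¬ d ∣ j * m e}) := by
      rw [Finset.coe_map, Set.image_image]
      rfl
    have hrk : rk l (S.map (Function.Embedding.subtype _)) = finrank k (Submodule.span k
        ((fun e : {e // ¬ d ∣ j * m e} => l e.1) '' (S : Set {e // ¬ d ∣ j * m e}))) := by
      unfold rk
      rw [himg]
    have h1 := hklt (S.map (Function.Embedding.subtype _)) (hS.map) (by rw [hrk]; exact hSn)
    rw [hrk, Finset.sum_map] at h1
    refine lt_of_le_of_lt (le_of_eq ?_) h1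
    exact Finset.sum_congr rfl fun e _ => (hwt e).symm
  · refine hw.trans (le_of_eq ?_)
    rw [nb_sum (fun e => ¬ d ∣ j * m e) (fun e => wt d m j e) fun e h => by
      unfold wt
      rw [if_pos (not_not.1 h)]]
    exact Finset.sum_congr rfl fun e _ => hwt e

end Pool.Agent.Helper70.HB
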