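import Mathlib
import Pool.Agent.Helper70.HB.Defs

namespace Pool.Agent.Helper70.HB

open Module Matrix Pool.Agent.Helper98.KA Pool.Agent.Helper70.HA

/-- A good partition gives rationality (only one exponent needs to be prime to `d`). -/
theorem rational_of_good2 {k F : Type*} [Field k] [CharZero k] [Field F] [Algebra k F] {n d : ℕ}
    (hd : 2 ≤ d) {E : Type*} [Fintype E] [DecidableEq E] (l : E → Fin (n + 1) → k)
    (hl : ∀ e, l e ≠ 0) (m : E → ℕ)
    (hgood : Good2 d m (rk l) Finset.univ) (x : Fin n → F) (hx : AlgebraicIndependent k x) (y : F)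
    (hy : y ^ d = ∏ e, (algebraMap k F (l e 0) + ∑ i : Fin n, algebraMap k F (l e i.succ) * x i) ^ m e)
    (hadj : IntermediateField.adjoin k (Set.range x ∪ {y}) = ⊤) :
    ∃ m : ℕ, Nonempty (F ≃ₐ[k] FractionRing (MvPolynomial (Fin m) k)) := by
  classical
  obtain ⟨P, hP1, hP2, p1, hp1, e1, he1, hlt, hme1⟩ := hgood
  -- the linear forms
  let ev : (Fin (n + 1) → k) → F := fun v => vmap (F := F) v ⬝ᵥ pt x
  have hev0 : ∀ v : Fin (n + 1) → k, v ≠ 0 → ev v ≠ 0 := by
    intro v hv h0
    apply hv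
    apply linform_ne_zero hx
    rw [← dot_pt]
    exact h0
  have hevA : ∀ (A : IntermediateField k F), (∀ i, x i ∈ A) → ∀ v, ev v ∈ A := by
    intro A hA v
    change vmap (F := F) v ⬝ᵥ pt x ∈ A
    rw [dot_pt]
    apply add_mem (A.algebraMap_mem _)
    apply sum_mem
    intro i _
    exact mul_mem (A.algebraMap_mem _) (hA i)
  have hy' : y ^ d = ∏ e, ev (l e) ^ m e := by
    rw [hy]
    apply Finset.prod_congr rfl
    intro e _
    congr 1
    exact (dot_pt x _).symm
  have htb : IsTranscendenceBasis k x := by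
    apply isTranscendenceBasis_of_roots hx (fun _ : Fin 1 => y) (fun _ => d) (fun _ => by omega)
    · intro _
      rw [hy]
      apply prod_mem
      intro e _
      apply pow_mem
      apply add_mem (Subalgebra.algebraMap_mem _ _)
      apply sum_mem
      intro i _
      exact mul_mem (Subalgebra.algebraMap_mem _ _) (Algebra.subset_adjoin ⟨i, rfl⟩)
    · rw [Set.range_const]
      exact hadj
  -- the parts
  have hne : ∀ p : {p // p ∈ P.parts}, p.1.Nonempty := fun p => P.nonempty_of_mem_parts p.2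
  have hrk : ∀ p : {p // p ∈ P.parts}, 1 ≤ rk l p.1 := fun p => r2_rk_pos l hl (hne p)
  have hers : (p1.erase e1).Nonempty := by
    rw [Finset.nonempty_iff_ne_empty]
    intro h0
    have h1 : p1 = {e1} := by
      rw [← Finset.insert_erase he1, h0]
      rfl
    have h2 := hP1 p1 hp1
    rw [h1, Finset.sum_singleton] at h2
    have h3 : d = 1 := (Nat.Coprime.eq_one_of_dvd hme1.symm h2)
    omega
  have hdat : ∀ p : {p // p ∈ P.parts}, ∃ (b : Fin (n + 1) → k)
      (c : Fin (rk l p.1 - 1) → Fin (n + 1) → k), (∃ e ∈ p.1, b = l e) ∧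
      Submodule.span k (insert b (Set.range c)) = Submodule.span k (l '' (p.1 : Set E)) ∧
      (p.1 = p1 → ∃ j0 : Fin (rk l p.1 - 1), c j0 = l e1 ∧
        Submodule.span k (insert b (c '' {j | j ≠ j0})) =
        Submodule.span k (l '' ((p.1.erase e1 : Finset E) : Set E))) := by
    intro p
    have hr : rk l p.1 = (rk l p.1 - 1) + 1 := by have := hrk p; omega
    by_cases hp : p.1 = p1
    · obtain ⟨b, c, h1, h2, h3⟩ := r2_basis1 l hl (S := p.1) (e1 := e1) (by rw [hp]; exact he1)
        (by rw [hp]; exact hers) (by rw [hp]; exact hlt) _ hr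
      exact ⟨b, c, h1, h2, fun _ => h3⟩
    · obtain ⟨b, c, h1, h2⟩ := r2_basis l (S := p.1) _ hr
      exact ⟨b, c, h1, h2, fun h => absurd h hp⟩
  choose b c hbe hspan hj using hdat
  obtain ⟨j0, hj0, hj0s⟩ := hj ⟨p1, hp1⟩ rfl
  have hb : ∀ p, ev (b p) ≠ 0 := by
    intro p
    obtain ⟨e, -, he⟩ := hbe p
    rw [he]
    exact hev0 _ (hl e)
  -- the part of an element
  let π : E → {p // p ∈ P.parts} := fun e => ⟨P.part e, P.part_mem.2 (Finset.mem_univ e)⟩
  have hπ : ∀ e (p : {p // p ∈ P.parts}), e ∈ p.1 ↔ π e = p := by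
    intro e p
    constructor
    · intro h
      exact Subtype.ext (P.part_eq_of_mem p.2 h)
    · rintro rfl
      exact P.mem_part (Finset.mem_univ e)
  have hπe : ∀ e, e ∈ (π e).1 := fun e => (hπ e _).2 rfl
  -- the sparsity condition
  have hsp : ∀ G : Finset {p // p ∈ P.parts}, G.Nonempty →
      ∑ i ∈ G, (rk l i.1 - 1) < finrank F (Ssp (F := F) b c G) := by
    intro G hG
    have h1 := hP2 (G.image Subtype.val) (by
      intro p hp
      obtain ⟨q, -, rfl⟩ := Finset.mem_image.1 hp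
      exact q.2) (hG.image _)
    rw [Finset.sum_image (fun a _ b _ h => Subtype.ext h),
      Finset.card_image_of_injective _ Subtype.val_injective] at h1
    have h2 : ∑ i ∈ G, (rk l i.1 - 1) + G.card = ∑ i ∈ G, rk l i.1 := by
      rw [Finset.card_eq_sum_ones, ← Finset.sum_add_distrib]
      apply Finset.sum_congr rfl
      intro i _
      have := hrk i
      omega
    have h3 : rk l ((G.image Subtype.val).sup id) ≤ finrank F (Ssp (F := F) b c G) := by
      unfold rk
      refine (finrank_le_of_vmap (F := F) _).trans ?_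
      apply Submodule.finrank_mono
      apply Submodule.span_le.mpr
      rintro _ ⟨_, ⟨e, he, rfl⟩, rfl⟩
      rw [Finset.mem_coe, Finset.mem_sup] at he
      obtain ⟨q, hq, heq⟩ := he
      obtain ⟨p, hp, rfl⟩ := Finset.mem_image.1 hq
      have h4 : l e ∈ Submodule.span k (insert (b p) (Set.range (c p))) := by
        rw [hspan p]
        exact Submodule.subset_span ⟨e, heq, rfl⟩
      refine r2_vmap_span _ ?_ _ h4
      rintro v (rfl | ⟨j, rfl⟩)
      · exact Submodule.subset_span ⟨p, hp, Or.inl rfl⟩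
      · exact Submodule.subset_span ⟨p, hp, Or.inr ⟨j, rfl⟩⟩
    omega
  -- the equation
  let t : {p // p ∈ P.parts} → ℕ := fun p => (∑ e ∈ p.1, m e) / d
  have ht : ∀ p, t p * d = ∑ e ∈ p.1, m e := fun p => Nat.div_mul_cancel (hP1 p.1 p.2)
  let h : F := ∏ p, ev (b p) ^ t p
  have hh0 : h ≠ 0 := Finset.prod_ne_zero_iff.mpr fun p _ => pow_ne_zero _ (hb p)
  let R : E → F := fun e => ev (l e) / ev (b (π e))
  have hR0 : ∀ e, R e ≠ 0 := fun e => div_ne_zero (hev0 _ (hl e)) (hb _)
  have hhd : h ^ d = ∏ e, ev (b (π e)) ^ m e := by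
    change (∏ p, ev (b p) ^ t p) ^ d = _
    rw [← Finset.prod_pow, ← Finset.prod_fiberwise (s := Finset.univ) (g := π)]
    apply Finset.prod_congr rfl
    intro p _
    have h1 : (Finset.univ.filter fun e => π e = p) = p.1 := by
      ext e
      simp only [Finset.mem_filter, Finset.mem_univ, true_and]
      exact (hπ e p).symm
    rw [h1, ← pow_mul, ht, ← Finset.prod_pow_eq_pow_sum]
    apply Finset.prod_congr rfl
    intro e he
    rw [(hπ e p).1 he]
  have hz : (y / h) ^ d = R e1 ^ m e1 * ∏ e ∈ Finset.univ.erase e1, R e ^ m e := by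
    rw [Finset.mul_prod_erase Finset.univ (fun e => R e ^ m e) (Finset.mem_univ e1), div_pow, hy',
      hhd, ← Finset.prod_div_distrib]
    apply Finset.prod_congr rfl
    intro e _
    rw [← div_pow]
  have hπ1 : π e1 = ⟨p1, hp1⟩ := (hπ e1 ⟨p1, hp1⟩).1 he1
  have hR1 : ratio x b c ⟨p1, hp1⟩ j0 = R e1 := by
    change (vmap (F := F) (c ⟨p1, hp1⟩ j0) ⬝ᵥ pt x) / (vmap (F := F) (b ⟨p1, hp1⟩) ⬝ᵥ pt x) =
      ev (l e1) / ev (b (π e1))
    rw [hj0, hπ1]
  set A : IntermediateField k F := IntermediateField.adjoin k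
    {a | ∃ p : Σ i : {p // p ∈ P.parts}, Fin (rk l i.1 - 1),
      p ≠ ⟨⟨p1, hp1⟩, j0⟩ ∧ a = ratio x b c p.1 p.2} with hA
  have hRA : ∀ e, e ≠ e1 → R e ∈ A := by
    intro e hee
    change (vmap (F := F) (l e) ⬝ᵥ pt x) / ev (b (π e)) ∈ A
    by_cases hp : π e = ⟨p1, hp1⟩
    · rw [hp]
      have h4 : l e ∈ Submodule.span k (insert (b ⟨p1, hp1⟩) (c ⟨p1, hp1⟩ '' {j | j ≠ j0})) := by
        rw [hj0s]
        refine Submodule.subset_span ⟨e, ?_, rfl⟩
        rw [Finset.mem_coe, Finset.mem_erase]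
        exact ⟨hee, (hπ e ⟨p1, hp1⟩).2 hp⟩
      refine r2_div_span x _ _ A ?_ _ h4
      rintro v (rfl | ⟨j, hj, rfl⟩)
      · change ev (b ⟨p1, hp1⟩) / ev (b ⟨p1, hp1⟩) ∈ A
        rw [div_self (hb _)]
        exact one_mem A
      · apply IntermediateField.subset_adjoin k _
        refine ⟨⟨⟨p1, hp1⟩, j⟩, ?_, rfl⟩
        intro h5
        exact hj (eq_of_heq (Sigma.mk.inj h5).2)
    · have h4 : l e ∈ Submodule.span k (insert (b (π e)) (Set.range (c (π e)))) := by
        rw [hspan]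
        exact Submodule.subset_span ⟨e, hπe e, rfl⟩
      refine r2_div_span x _ _ A ?_ _ h4
      rintro v (rfl | ⟨j, rfl⟩)
      · change ev (b (π e)) / ev (b (π e)) ∈ A
        rw [div_self (hb _)]
        exact one_mem A
      · apply IntermediateField.subset_adjoin k _
        refine ⟨⟨π e, j⟩, ?_, rfl⟩
        intro h5
        exact hp (Sigma.mk.inj h5).1
  refine rational_of_blocks (β := {p // p ∈ P.parts}) (M := fun i => rk l i.1 - 1) x htb b c hb hsp
    ⟨⟨p1, hp1⟩, j0⟩ y (y / h) (∏ e ∈ Finset.univ.erase e1, R e ^ m e) h (μ := m e1) (d := d)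
    hme1 (by omega) ?_ ?_ ?_ ?_ ?_ ?_ hadj
  · change ratio x b c ⟨p1, hp1⟩ j0 ≠ 0
    rw [hR1]
    exact hR0 e1
  · exact Finset.prod_ne_zero_iff.mpr fun e _ => pow_ne_zero _ (hR0 e)
  · apply prod_mem
    intro e he
    exact pow_mem (hRA e (Finset.ne_of_mem_erase he)) _
  · change (y / h) ^ d = ratio x b c ⟨p1, hp1⟩ j0 ^ m e1 * _
    rw [hR1]
    exact hz
  · apply prod_mem
    intro p _
    apply pow_mem
    exact hevA (IntermediateField.adjoin k (Set.range x))
      (fun i => IntermediateField.subset_adjoin k (Set.range x) (Set.mem_range_self i)) _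
  · rw [div_mul_cancel₀ _ hh0]

end Pool.Agent.Helper70.HB
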