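import Mathlib
import Pool.Agent.Helper70.HB.Defs

namespace Pool.Agent.Helper70.HB

/-- splitting a finite set according to a splitting of the multiset of the values -/
theorem ta_split {E : Type*} [DecidableEq E] (a : E → ℕ) (B C : Multiset ℕ) :
    ∀ X : Finset E, X.val.map a = B + C →
      ∃ Y ⊆ X, Y.val.map a = B ∧ (X \ Y).val.map a = C := by
  induction B using Multiset.induction_on with
  | empty =>
    intro X h
    refine ⟨∅, Finset.empty_subset X, by simp, ?_⟩
    rw [Finset.sdiff_empty, h, zero_add]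
  | cons b B ih =>
    intro X h
    have hb : b ∈ X.val.map a := by
      rw [h, Multiset.cons_add]
      exact Multiset.mem_cons_self _ _
    obtain ⟨x, hx, hxb⟩ := Multiset.mem_map.1 hb
    have hxX : x ∈ X := hx
    have h1 : X.val = x ::ₘ (X.erase x).val := by
      rw [Finset.erase_val, Multiset.cons_erase hx]
    have h2 : (X.erase x).val.map a = B + C := by
      rw [h1, Multiset.map_cons, hxb, Multiset.cons_add] at h
      exact (Multiset.cons_inj_right b).1 h
    obtain ⟨Y, hY, hYB, hYC⟩ := ih _ h2
    have hxY : x ∉ Y := fun h3 => (Finset.mem_erase.1 (hY h3)).1 rfl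
    refine ⟨insert x Y, ?_, ?_, ?_⟩
    · intro y hy
      rcases Finset.mem_insert.1 hy with rfl | hy
      · exact hxX
      · exact Finset.mem_of_mem_erase (hY hy)
    · rw [Finset.insert_val_of_notMem hxY, Multiset.map_cons, hYB, hxb]
    · have h3 : X \ insert x Y = X.erase x \ Y := by
        ext y
        simp only [Finset.mem_sdiff, Finset.mem_insert, Finset.mem_erase]
        tauto
      rw [h3, hYC]

/-- A decomposition of the multiset of the values gives a partition of the set. -/
theorem exists_partition_of_dec {E : Type*} [DecidableEq E] {d : ℕ} (hd : 1 ≤ d) (a : E → ℕ)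
    (X : Finset E) (h : Dec d (X.val.map a)) :
    ∃ P : Finpartition X, ∀ p ∈ P.parts, ∑ e ∈ p, a e = d := by
  obtain ⟨L, hL, hLd⟩ := h
  induction L using Multiset.induction_on generalizing X with
  | empty =>
    rw [Multiset.sum_zero] at hL
    have h1 : X.val = 0 := Multiset.map_eq_zero.1 hL.symm
    have h2 : X = ∅ := Finset.val_eq_zero.1 h1
    refine ⟨(Finpartition.empty _).copy (by rw [h2]; rfl), ?_⟩
    intro p hp
    simp at hp
  | cons B L ih =>
    rw [Multiset.sum_cons] at hL
    obtain ⟨Y, hYX, hYB, hYC⟩ := ta_split a B L.sum X hL.symm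
    obtain ⟨P, hP⟩ := ih (X \ Y) hYC.symm fun C hC => hLd C (Multiset.mem_cons_of_mem hC)
    have hBd : B.sum = d := hLd B (Multiset.mem_cons_self _ _)
    have hYs : ∑ e ∈ Y, a e = d := by
      show (Y.val.map a).sum = d
      rw [hYB, hBd]
    have hYne : Y ≠ ∅ := by
      intro h1
      rw [h1, Finset.sum_empty] at hYs
      omega
    have hdis : Disjoint (X \ Y) Y := Finset.sdiff_disjoint
    have heq : (X \ Y) ⊔ Y = X := by
      rw [Finset.sup_eq_union]
      exact Finset.sdiff_union_of_subset hYX
    refine ⟨P.extend hYne hdis heq, ?_⟩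
    intro p hp
    rw [Finpartition.extend_parts, Finset.mem_insert] at hp
    rcases hp with rfl | hp
    · exact hYs
    · exact hP p hp

theorem Dec.zero (d : ℕ) : Dec d 0 :=
  ⟨0, Multiset.sum_zero, fun B hB => absurd hB (Multiset.notMem_zero B)⟩

theorem Dec.add {d : ℕ} {S T : Multiset ℕ} (hS : Dec d S) (hT : Dec d T) : Dec d (S + T) := by
  obtain ⟨L, hL, hLd⟩ := hS
  obtain ⟨L', hL', hLd'⟩ := hT
  refine ⟨L + L', by rw [Multiset.sum_add, hL, hL'], ?_⟩
  intro B hB
  rcases Multiset.mem_add.1 hB with hB | hB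
  · exact hLd B hB
  · exact hLd' B hB

theorem Dec.nsmul {d : ℕ} {S : Multiset ℕ} (hS : Dec d S) (n : ℕ) : Dec d (n • S) := by
  induction n with
  | zero => rw [zero_nsmul]; exact Dec.zero d
  | succ n ih => rw [succ_nsmul]; exact ih.add hS

theorem Dec.of_sum {d : ℕ} {S : Multiset ℕ} (hS : S.sum = d) : Dec d S := by
  refine ⟨{S}, Multiset.sum_singleton S, ?_⟩
  intro B hB
  rw [Multiset.mem_singleton.1 hB, hS]

end Pool.Agent.Helper70.HB
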