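import Mathlib
import Pool.Agent.Helper70.HB.TA

namespace Pool.Agent.Helper70.HB

/-- The multiset with `a` ones, `b` twos, `c` threes and `e` fours. -/
private def V (a b c e : ℕ) : Multiset ℕ :=
  a • ({1} : Multiset ℕ) + b • ({2} : Multiset ℕ) + c • ({3} : Multiset ℕ) +
    e • ({4} : Multiset ℕ)

private theorem V_add (a b c e a' b' c' e' : ℕ) :
    V (a + a') (b + b') (c + c') (e + e') = V a b c e + V a' b' c' e' := by
  unfold V
  simp only [add_nsmul]
  abel

private theorem V_nsmul (k a b c e : ℕ) :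
    V (k * a) (k * b) (k * c) (k * e) = k • V a b c e := by
  unfold V
  simp only [nsmul_add, mul_nsmul', ]

private theorem V_sum (a b c e : ℕ) : (V a b c e).sum = a + 2 * b + 3 * c + 4 * e := by
  unfold V
  simp only [Multiset.sum_add, Multiset.sum_nsmul, Multiset.sum_singleton, smul_eq_mul]
  ring

private theorem V_map (f : ℕ → ℕ) (a b c e : ℕ) : (V a b c e).map f =
    a • ({f 1} : Multiset ℕ) + b • ({f 2} : Multiset ℕ) + c • ({f 3} : Multiset ℕ) +
    e • ({f 4} : Multiset ℕ) := by
  unfold V
  simp only [Multiset.map_add, Multiset.map_nsmul, Multiset.map_singleton]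

private theorem exists_V (T : Multiset ℕ) (h : ∀ x ∈ T, 1 ≤ x ∧ x ≤ 4) :
    ∃ a b c e, T = V a b c e := by
  induction T using Multiset.induction_on with
  | empty => exact ⟨0, 0, 0, 0, by simp [V]⟩
  | cons x T ih =>
    obtain ⟨a, b, c, e, rfl⟩ := ih (fun y hy => h y (Multiset.mem_cons_of_mem hy))
    obtain ⟨h1, h4⟩ := h x (Multiset.mem_cons_self x _)
    have hx : x = 1 ∨ x = 2 ∨ x = 3 ∨ x = 4 := by omega
    rcases hx with rfl | rfl | rfl | rfl
    · exact ⟨a + 1, b, c, e, by
        rw [← Multiset.singleton_add]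
        unfold V
        simp only [add_nsmul, one_nsmul]
        abel⟩
    · exact ⟨a, b + 1, c, e, by
        rw [← Multiset.singleton_add]
        unfold V
        simp only [add_nsmul, one_nsmul]
        abel⟩
    · exact ⟨a, b, c + 1, e, by
        rw [← Multiset.singleton_add]
        unfold V
        simp only [add_nsmul, one_nsmul]
        abel⟩
    · exact ⟨a, b, c, e + 1, by
        rw [← Multiset.singleton_add]
        unfold V
        simp only [add_nsmul, one_nsmul]
        abel⟩

/-- `k` copies of a block. -/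
private theorem dec_block {d : ℕ} (k a b c e : ℕ) (h : a + 2 * b + 3 * c + 4 * e = d) :
    Dec d (V (k * a) (k * b) (k * c) (k * e)) := by
  rw [V_nsmul]
  exact (Dec.of_sum (by rw [V_sum]; exact h)).nsmul k

private theorem dec_V {d : ℕ} {a b c e a' b' c' e' : ℕ} (h : Dec d (V a b c e))
    (h1 : a = a') (h2 : b = b') (h3 : c = c') (h4 : e = e') : Dec d (V a' b' c' e') := by
  subst h1 h2 h3 h4
  exact h

private theorem dec_add {d : ℕ} {a b c e a' b' c' e' : ℕ} (h : Dec d (V a b c e))
    (h' : Dec d (V a' b' c' e')) : Dec d (V (a + a') (b + b') (c + c') (e + e')) := by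
  rw [V_add]
  exact h.add h'

private theorem main2 (a : ℕ) (h : 2 ∣ a) : Dec 2 (V a 0 0 0) := by
  obtain ⟨k, rfl⟩ := h
  exact dec_V (dec_block k 2 0 0 0 (by norm_num)) (by ring) (by ring) (by ring) (by ring)

private theorem main3 (p k : ℕ) (h : 3 ∣ p) : Dec 3 (V (p + k) k 0 0) := by
  obtain ⟨t, rfl⟩ := h
  refine dec_V (dec_add (dec_block t 3 0 0 0 (by norm_num)) (dec_block k 1 1 0 0 (by norm_num)))
    ?_ ?_ ?_ ?_ <;> ring

private theorem main4 (p q k : ℕ) (h : 4 ∣ p + 2 * q) : Dec 4 (V (p + k) q k 0) := by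
  rcases Nat.even_or_odd' q with ⟨s, rfl | rfl⟩
  · have h1 : ∃ t, p = 4 * t := by
      obtain ⟨u, hu⟩ := h
      exact ⟨u - s, by omega⟩
    obtain ⟨t, rfl⟩ := h1
    refine dec_V (dec_add (dec_add (dec_block t 4 0 0 0 (by norm_num))
      (dec_block s 0 2 0 0 (by norm_num))) (dec_block k 1 0 1 0 (by norm_num)))
      ?_ ?_ ?_ ?_ <;> ring
  · have h1 : ∃ t, p = 4 * t + 2 := by
      obtain ⟨u, hu⟩ := h
      exact ⟨u - s - 1, by omega⟩
    obtain ⟨t, rfl⟩ := h1
    refine dec_V (dec_add (dec_add (dec_add (dec_block t 4 0 0 0 (by norm_num))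
      (dec_block s 0 2 0 0 (by norm_num))) (dec_block k 1 0 1 0 (by norm_num)))
      (dec_block 1 2 1 0 0 (by norm_num)))
      ?_ ?_ ?_ ?_ <;> ring

private theorem main5 (p q k l : ℕ) (h : 5 ∣ p + 2 * q) :
    Dec 5 (V (p + k) (q + l) l k) ∨ Dec 5 (V (q + l) k (p + k) l) := by
  rcases le_or_gt q (2 * p) with h1 | h1
  · left
    rcases Nat.even_or_odd' q with ⟨s, rfl | rfl⟩
    · have h2 : ∃ t, p = s + 5 * t := by
        obtain ⟨u, hu⟩ := h
        exact ⟨u - s, by omega⟩
      obtain ⟨t, rfl⟩ := h2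
      refine dec_V (dec_add (dec_add (dec_add (dec_block t 5 0 0 0 (by norm_num))
        (dec_block s 1 2 0 0 (by norm_num))) (dec_block k 1 0 0 1 (by norm_num)))
        (dec_block l 0 1 1 0 (by norm_num)))
        ?_ ?_ ?_ ?_ <;> ring
    · have h2 : ∃ t, p = s + 3 + 5 * t := by
        obtain ⟨u, hu⟩ := h
        exact ⟨u - s - 1, by omega⟩
      obtain ⟨t, rfl⟩ := h2
      refine dec_V (dec_add (dec_add (dec_add (dec_add (dec_block t 5 0 0 0 (by norm_num))
        (dec_block s 1 2 0 0 (by norm_num))) (dec_block k 1 0 0 1 (by norm_num)))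
        (dec_block l 0 1 1 0 (by norm_num))) (dec_block 1 3 1 0 0 (by norm_num)))
        ?_ ?_ ?_ ?_ <;> ring
  · right
    have h2 : ∃ t, q = 2 * p + 5 * t := by
      obtain ⟨u, hu⟩ := h
      have h3 : 5 ∣ q - 2 * p := by omega
      obtain ⟨t, ht⟩ := h3
      exact ⟨t, by omega⟩
    obtain ⟨t, rfl⟩ := h2
    refine dec_V (dec_add (dec_add (dec_add (dec_block t 5 0 0 0 (by norm_num))
      (dec_block p 2 0 1 0 (by norm_num))) (dec_block k 0 1 1 0 (by norm_num)))
      (dec_block l 1 0 0 1 (by norm_num)))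
      ?_ ?_ ?_ ?_ <;> ring

private theorem map_mod {d : ℕ} (j : ℕ) (S : Multiset ℕ) :
    S.map (fun x => (j * x) % d) = (S.map (fun x => x % d)).map (fun x => (j * x) % d) := by
  rw [Multiset.map_map]
  refine Multiset.map_congr rfl (fun x _ => ?_)
  simp [Nat.mul_mod]

private theorem sum_mod {d : ℕ} (S : Multiset ℕ) (h : d ∣ S.sum) :
    d ∣ (S.map (fun x => x % d)).sum := by
  have h1 : ∀ S : Multiset ℕ, S.sum ≡ (S.map (fun x => x % d)).sum [MOD d] := by
    intro S
    induction S using Multiset.induction_on with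
    | empty => simp; exact Nat.ModEq.refl _
    | cons x S ih =>
      rw [Multiset.map_cons, Multiset.sum_cons, Multiset.sum_cons]
      exact Nat.ModEq.add (Nat.mod_modEq x d).symm ih
  exact (Nat.modEq_zero_iff_dvd.mp ((h1 S).symm.trans (Nat.modEq_zero_iff_dvd.mpr h)))

/-- Degrees 2, 3, 4, 5. -/
theorem dec_small {d : ℕ} (hd : d = 2 ∨ d = 3 ∨ d = 4 ∨ d = 5) (S : Multiset ℕ)
    (hS : ∀ x ∈ S, ¬ d ∣ x) (hsum : d ∣ S.sum) :
    ∃ j, 1 ≤ j ∧ j < d ∧ j.Coprime d ∧ Dec d (S.map (fun x => (j * x) % d)) := by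
  have hmem : ∀ x ∈ S.map (fun x => x % d), 1 ≤ x ∧ x < d := by
    intro y hy
    obtain ⟨x, hx, rfl⟩ := Multiset.mem_map.mp hy
    refine ⟨?_, Nat.mod_lt _ (by omega)⟩
    have := hS x hx
    rw [Nat.dvd_iff_mod_eq_zero] at this
    show 1 ≤ x % d
    omega
  have hs := sum_mod S hsum
  simp_rw [map_mod _ S]
  obtain ⟨a, b, c, e, hT⟩ := exists_V (S.map (fun x => x % d))
    (fun x hx => ⟨(hmem x hx).1, by have := (hmem x hx).2; omega⟩)
  rw [hT] at hs hmem ⊢
  rw [V_sum] at hs
  simp_rw [V_map]
  have hz : ∀ (i k : ℕ), (i ≠ 0 → k ∈ V a b c e) → ¬ (1 ≤ k ∧ k < d) → i = 0 := by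
    intro i k h1 h2
    by_contra h3
    exact h2 (hmem k (h1 h3))
  have hmV1 : ∀ k, b ≠ 0 → k = 2 → k ∈ V a b c e := by
    rintro k hb rfl
    unfold V
    simp [hb]
  have hmV2 : ∀ k, c ≠ 0 → k = 3 → k ∈ V a b c e := by
    rintro k hb rfl
    unfold V
    simp [hb]
  have hmV3 : ∀ k, e ≠ 0 → k = 4 → k ∈ V a b c e := by
    rintro k hb rfl
    unfold V
    simp [hb]
  rcases hd with rfl | rfl | rfl | rfl
  · have hb : b = 0 := hz b 2 (fun h => hmV1 2 h rfl) (by omega)
    have hc : c = 0 := hz c 3 (fun h => hmV2 3 h rfl) (by omega)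
    have he : e = 0 := hz e 4 (fun h => hmV3 4 h rfl) (by omega)
    subst hb hc he
    refine ⟨1, le_rfl, by norm_num, by norm_num, ?_⟩
    have := main2 a (by omega)
    unfold V at this
    simpa using this
  · have hc : c = 0 := hz c 3 (fun h => hmV2 3 h rfl) (by omega)
    have he : e = 0 := hz e 4 (fun h => hmV3 4 h rfl) (by omega)
    subst hc he
    rcases le_total b a with h1 | h1
    · obtain ⟨p, rfl⟩ := Nat.exists_eq_add_of_le h1
      refine ⟨1, le_rfl, by norm_num, by norm_num, ?_⟩
      have := main3 p b (by omega)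
      rw [add_comm p b] at this
      unfold V at this
      simpa using this
    · obtain ⟨p, rfl⟩ := Nat.exists_eq_add_of_le h1
      refine ⟨2, by norm_num, by norm_num, by norm_num, ?_⟩
      have := main3 p a (by omega)
      rw [add_comm p a] at this
      unfold V at this
      norm_num at this ⊢
      rw [add_comm]
      exact this
  · have he : e = 0 := hz e 4 (fun h => hmV3 4 h rfl) (by omega)
    subst he
    rcases le_total c a with h1 | h1
    · obtain ⟨p, rfl⟩ := Nat.exists_eq_add_of_le h1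
      refine ⟨1, le_rfl, by norm_num, by norm_num, ?_⟩
      have := main4 p b c (by omega)
      rw [add_comm p c] at this
      unfold V at this
      norm_num at this ⊢
      exact this
    · obtain ⟨p, rfl⟩ := Nat.exists_eq_add_of_le h1
      refine ⟨3, by norm_num, by norm_num, by norm_num, ?_⟩
      have := main4 p b a (by omega)
      rw [add_comm p a] at this
      unfold V at this
      norm_num at this ⊢
      have h2 : a • ({3} : Multiset ℕ) + b • ({2} : Multiset ℕ) + (a + p) • ({1} : Multiset ℕ) =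
        (a + p) • ({1} : Multiset ℕ) + b • ({2} : Multiset ℕ) + a • ({3} : Multiset ℕ) := by
        abel
      rw [h2]
      exact this
  · have key : Dec 5 (V a b c e) ∨ Dec 5 (V c a e b) ∨ Dec 5 (V b e a c) ∨
        Dec 5 (V e c b a) := by
      rcases le_total e a with h1 | h1 <;> rcases le_total c b with h2 | h2
      · obtain ⟨p, rfl⟩ := Nat.exists_eq_add_of_le h1
        obtain ⟨q, rfl⟩ := Nat.exists_eq_add_of_le h2
        rcases main5 p q e c (by omega) with h3 | h3
        · left
          exact dec_V h3 (by ring) (by ring) rfl rfl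
        · right; right; left
          exact dec_V h3 (by ring) (by ring) (by ring) rfl
      · obtain ⟨p, rfl⟩ := Nat.exists_eq_add_of_le h1
        obtain ⟨q, rfl⟩ := Nat.exists_eq_add_of_le h2
        rcases main5 q p b e (by omega) with h3 | h3
        · right; left
          exact dec_V h3 (by ring) (by ring) rfl rfl
        · left
          exact dec_V h3 (by ring) (by ring) (by ring) rfl
      · obtain ⟨p, rfl⟩ := Nat.exists_eq_add_of_le h1
        obtain ⟨q, rfl⟩ := Nat.exists_eq_add_of_le h2
        rcases main5 q p c a (by omega) with h3 | h3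
        · right; right; left
          exact dec_V h3 (by ring) (by ring) rfl rfl
        · right; right; right
          exact dec_V h3 (by ring) (by ring) (by ring) rfl
      · obtain ⟨p, rfl⟩ := Nat.exists_eq_add_of_le h1
        obtain ⟨q, rfl⟩ := Nat.exists_eq_add_of_le h2
        rcases main5 p q a b (by omega) with h3 | h3
        · right; right; right
          exact dec_V h3 (by ring) (by ring) rfl rfl
        · right; left
          exact dec_V h3 (by ring) (by ring) (by ring) rfl
    rcases key with h | h | h | h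
    · refine ⟨1, le_rfl, by norm_num, by norm_num, ?_⟩
      unfold V at h
      norm_num at h ⊢
      exact h
    · refine ⟨2, by norm_num, by norm_num, by norm_num, ?_⟩
      unfold V at h
      norm_num at h ⊢
      have h2 : a • ({2} : Multiset ℕ) + b • ({4} : Multiset ℕ) + c • ({1} : Multiset ℕ) +
          e • ({3} : Multiset ℕ) = c • ({1} : Multiset ℕ) + a • ({2} : Multiset ℕ) +
          e • ({3} : Multiset ℕ) + b • ({4} : Multiset ℕ) := by abel
      rw [h2]
      exact h
    · refine ⟨3, by norm_num, by norm_num, by norm_num, ?_⟩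
      unfold V at h
      norm_num at h ⊢
      have h2 : a • ({3} : Multiset ℕ) + b • ({1} : Multiset ℕ) + c • ({4} : Multiset ℕ) +
          e • ({2} : Multiset ℕ) = b • ({1} : Multiset ℕ) + e • ({2} : Multiset ℕ) +
          a • ({3} : Multiset ℕ) + c • ({4} : Multiset ℕ) := by abel
      rw [h2]
      exact h
    · refine ⟨4, by norm_num, by norm_num, by norm_num, ?_⟩
      unfold V at h
      norm_num at h ⊢
      have h2 : a • ({4} : Multiset ℕ) + b • ({3} : Multiset ℕ) + c • ({2} : Multiset ℕ) +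
          e • ({1} : Multiset ℕ) = e • ({1} : Multiset ℕ) + c • ({2} : Multiset ℕ) +
          b • ({3} : Multiset ℕ) + a • ({4} : Multiset ℕ) := by abel
      rw [h2]
      exact h

end Pool.Agent.Helper70.HB
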