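import Mathlib
import Pool.Agent.Helper70.HB.TA

namespace Pool.Agent.Helper70.HB

/-! ### blocks of sum 7 with parts 1, 2, 3 -/

lemma tc_ex2 {a b c : ℕ} (h1 : b ≤ 3 * a + 2 * c) (h2 : 2 * c ≤ 4 * a + b)
    (h7 : 7 ∣ a + 2 * b + 3 * c) :
    ∃ n1 n2 n3 n4 n5 n6 n7 n8 : ℕ, a = 7 * n1 + n2 + n4 + 2 * n5 + 4 * n6 + 3 * n7 + 5 * n8 ∧
      b = 3 * n2 + 2 * n3 + n5 + 2 * n7 + n8 ∧ c = n3 + 2 * n4 + n5 + n6 := by
  obtain ⟨k, hk⟩ := h7
  by_cases hc : 2 * c ≤ b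
  · have h3 : (b - 2 * c) % 3 = 0 ∨ (b - 2 * c) % 3 = 1 ∨ (b - 2 * c) % 3 = 2 := by omega
    rcases h3 with h | h | h
    · refine ⟨(a - (b - 2 * c) / 3) / 7, (b - 2 * c) / 3, c, 0, 0, 0, 0, 0, ?_, ?_, ?_⟩ <;> omega
    · refine ⟨(a - (b - 2 * c) / 3) / 7, (b - 2 * c) / 3, c, 0, 0, 0, 0, 1, ?_, ?_, ?_⟩ <;> omega
    · refine ⟨(a - (b - 2 * c) / 3) / 7, (b - 2 * c) / 3, c, 0, 0, 0, 1, 0, ?_, ?_, ?_⟩ <;> omega
  · have h3 : b % 2 = 0 ∨ b % 2 = 1 := by omega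
    have h4 : (c - b / 2) % 2 = 0 ∨ (c - b / 2) % 2 = 1 := by omega
    rcases h3 with h | h <;> rcases h4 with h' | h'
    · refine ⟨(a - (c - b / 2) / 2) / 7, 0, b / 2, (c - b / 2) / 2, 0, 0, 0, 0, ?_, ?_, ?_⟩ <;>
        omega
    · refine ⟨(a - (c - b / 2) / 2) / 7, 0, b / 2, (c - b / 2) / 2, 0, 1, 0, 0, ?_, ?_, ?_⟩ <;>
        omega
    · refine ⟨(a - (c - b / 2) / 2) / 7, 0, b / 2, (c - b / 2) / 2, 0, 0, 0, 1, ?_, ?_, ?_⟩ <;>
        omega
    · refine ⟨(a - (c - b / 2) / 2) / 7, 0, b / 2, (c - b / 2) / 2, 1, 0, 0, 0, ?_, ?_, ?_⟩ <;>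
        omega

lemma tc_blk {T : Multiset ℕ} (n : ℕ) (h : T.sum = 7) : Dec 7 (n • T) :=
  (Dec.of_sum h).nsmul n

lemma tc_dec2 {a b c : ℕ} (h1 : b ≤ 3 * a + 2 * c) (h2 : 2 * c ≤ 4 * a + b)
    (h7 : 7 ∣ a + 2 * b + 3 * c) :
    Dec 7 (a • ({1} : Multiset ℕ) + b • ({2} : Multiset ℕ) + c • ({3} : Multiset ℕ)) := by
  obtain ⟨n1, n2, n3, n4, n5, n6, n7, n8, ha, hb, hc⟩ := tc_ex2 h1 h2 h7
  have : a • ({1} : Multiset ℕ) + b • ({2} : Multiset ℕ) + c • ({3} : Multiset ℕ) =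
      n1 • (7 • ({1} : Multiset ℕ)) + n2 • (({1} : Multiset ℕ) + 3 • ({2} : Multiset ℕ)) +
      n3 • (2 • ({2} : Multiset ℕ) + ({3} : Multiset ℕ)) +
      n4 • (({1} : Multiset ℕ) + 2 • ({3} : Multiset ℕ)) +
      n5 • (2 • ({1} : Multiset ℕ) + ({2} : Multiset ℕ) + ({3} : Multiset ℕ)) +
      n6 • (4 • ({1} : Multiset ℕ) + ({3} : Multiset ℕ)) +
      n7 • (3 • ({1} : Multiset ℕ) + 2 • ({2} : Multiset ℕ)) +
      n8 • (5 • ({1} : Multiset ℕ) + ({2} : Multiset ℕ)) := by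
    rw [ha, hb, hc]
    module
  rw [this]
  refine Dec.add (Dec.add (Dec.add (Dec.add (Dec.add (Dec.add (Dec.add ?_ ?_) ?_) ?_) ?_) ?_) ?_) ?_
    <;> exact tc_blk _ (by simp [Multiset.sum_nsmul])

/-- `Good u v w`: the statement for multisets with three residues -/
def Good (u v w : ℕ) : Prop := ∀ a b c : ℕ, 7 ∣ u * a + v * b + w * c →
  ∃ j, 1 ≤ j ∧ j < 7 ∧ Dec 7 (a • ({j * u % 7} : Multiset ℕ) + b • ({j * v % 7} : Multiset ℕ) +
    c • ({j * w % 7} : Multiset ℕ))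

lemma tc_good2 : Good 1 2 3 := by
  intro a b c h7
  obtain ⟨k, hk⟩ := h7
  by_cases h1 : b ≤ 3 * a + 2 * c
  · by_cases h2 : 2 * c ≤ 4 * a + b
    · exact ⟨1, le_rfl, by norm_num, tc_dec2 h1 h2 ⟨k, by omega⟩⟩
    · refine ⟨5, by norm_num, by norm_num, ?_⟩
      simp only [show 5 * 1 % 7 = 5 from rfl, show 5 * 2 % 7 = 3 from rfl,
        show 5 * 3 % 7 = 1 from rfl]
      obtain ⟨q, r, s, hq, hr⟩ : ∃ q r s : ℕ, b = 2 * q + r ∧ c = 2 * a + q + 4 * r + 7 * s := by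
        rcases (by omega : b % 2 = 0 ∨ b % 2 = 1) with h | h
        · exact ⟨b / 2, 0, (c - 2 * a - b / 2) / 7, by omega, by omega⟩
        · exact ⟨b / 2, 1, (c - 2 * a - b / 2) / 7, by omega, by omega⟩
      have : a • ({5} : Multiset ℕ) + b • ({3} : Multiset ℕ) + c • ({1} : Multiset ℕ) =
          a • (({5} : Multiset ℕ) + 2 • ({1} : Multiset ℕ)) +
          q • (2 • ({3} : Multiset ℕ) + ({1} : Multiset ℕ)) +
          r • (({3} : Multiset ℕ) + 4 • ({1} : Multiset ℕ)) +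
          s • (7 • ({1} : Multiset ℕ)) := by
        rw [hr, hq]
        module
      rw [this]
      refine Dec.add (Dec.add (Dec.add ?_ ?_) ?_) ?_ <;> exact tc_blk _ (by simp [Multiset.sum_nsmul])
  · refine ⟨4, by norm_num, by norm_num, ?_⟩
    simp only [show 4 * 1 % 7 = 4 from rfl, show 4 * 2 % 7 = 1 from rfl,
      show 4 * 3 % 7 = 5 from rfl]
    obtain ⟨s, hs⟩ : ∃ s : ℕ, b = 3 * a + 2 * c + 7 * s :=
      ⟨(b - 3 * a - 2 * c) / 7, by omega⟩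
    have : a • ({4} : Multiset ℕ) + b • ({1} : Multiset ℕ) + c • ({5} : Multiset ℕ) =
        a • (({4} : Multiset ℕ) + 3 • ({1} : Multiset ℕ)) +
        c • (({5} : Multiset ℕ) + 2 • ({1} : Multiset ℕ)) +
        s • (7 • ({1} : Multiset ℕ)) := by
      rw [hs]
      module
    rw [this]
    refine Dec.add (Dec.add ?_ ?_) ?_ <;> exact tc_blk _ (by simp [Multiset.sum_nsmul])

lemma tc_dec1 {a b c : ℕ} (h1 : 3 * c ≤ a + 2 * b) (h2 : b + 2 * c ≤ 3 * a)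
    (h7 : 7 ∣ a + 2 * b + 4 * c) :
    Dec 7 (a • ({1} : Multiset ℕ) + b • ({2} : Multiset ℕ) + c • ({4} : Multiset ℕ)) := by
  obtain ⟨k, hk⟩ := h7
  by_cases hc : c ≤ b
  · have hd : Dec 7 ((a - c) • ({1} : Multiset ℕ) + (b - c) • ({2} : Multiset ℕ) +
        0 • ({3} : Multiset ℕ)) := tc_dec2 (by omega) (by omega) ⟨k - c, by omega⟩
    obtain ⟨a', rfl⟩ : ∃ a', a = a' + c := ⟨a - c, by omega⟩
    obtain ⟨b', rfl⟩ : ∃ b', b = b' + c := ⟨b - c, by omega⟩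
    rw [Nat.add_sub_cancel, Nat.add_sub_cancel] at hd
    have : (a' + c) • ({1} : Multiset ℕ) + (b' + c) • ({2} : Multiset ℕ) +
        c • ({4} : Multiset ℕ) = c • (({1} : Multiset ℕ) + ({2} : Multiset ℕ) + ({4} : Multiset ℕ)) +
        (a' • ({1} : Multiset ℕ) + b' • ({2} : Multiset ℕ) + 0 • ({3} : Multiset ℕ)) := by
      module
    rw [this]
    exact (tc_blk _ (by simp [Multiset.sum_nsmul])).add hd
  · obtain ⟨d, rfl⟩ : ∃ d, c = b + d := ⟨c - b, by omega⟩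
    obtain ⟨s, rfl⟩ : ∃ s, a = b + 3 * d + 7 * s := ⟨(a - b - 3 * d) / 7, by omega⟩
    have : (b + 3 * d + 7 * s) • ({1} : Multiset ℕ) + b • ({2} : Multiset ℕ) +
        (b + d) • ({4} : Multiset ℕ) =
        b • (({1} : Multiset ℕ) + ({2} : Multiset ℕ) + ({4} : Multiset ℕ)) +
        d • (3 • ({1} : Multiset ℕ) + ({4} : Multiset ℕ)) + s • (7 • ({1} : Multiset ℕ)) := by
      module
    rw [this]
    refine Dec.add (Dec.add ?_ ?_) ?_ <;> exact tc_blk _ (by simp [Multiset.sum_nsmul])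

lemma tc_good1 : Good 1 2 4 := by
  intro a b c h7
  obtain ⟨k, hk⟩ := h7
  by_cases h1 : 3 * c ≤ a + 2 * b ∧ b + 2 * c ≤ 3 * a
  · exact ⟨1, le_rfl, by norm_num, tc_dec1 h1.1 h1.2 ⟨k, by omega⟩⟩
  by_cases h2 : 3 * b ≤ c + 2 * a ∧ a + 2 * b ≤ 3 * c
  · refine ⟨2, by norm_num, by norm_num, ?_⟩
    simp only [show 2 * 1 % 7 = 2 from rfl, show 2 * 2 % 7 = 4 from rfl,
      show 2 * 4 % 7 = 1 from rfl]
    have := tc_dec1 h2.1 h2.2 ⟨2 * k - c, by omega⟩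
    rwa [add_rotate] at this
  · have h3 : 3 * a ≤ b + 2 * c ∧ c + 2 * a ≤ 3 * b := by omega
    refine ⟨4, by norm_num, by norm_num, ?_⟩
    simp only [show 4 * 1 % 7 = 4 from rfl, show 4 * 2 % 7 = 1 from rfl,
      show 4 * 4 % 7 = 2 from rfl]
    have := tc_dec1 h3.1 h3.2 ⟨4 * k - b - 2 * c, by omega⟩
    rwa [add_rotate, add_rotate] at this

lemma Good.rot {u v w : ℕ} (h : Good u v w) : Good v w u := by
  intro a b c h7
  obtain ⟨j, h1, h2, h3⟩ := h c a b (by rwa [add_rotate, add_rotate] at h7)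
  refine ⟨j, h1, h2, ?_⟩
  rwa [add_rotate] at h3

lemma Good.swap {u v w : ℕ} (h : Good u v w) : Good v u w := by
  intro a b c h7
  obtain ⟨j, h1, h2, h3⟩ := h b a c (by rwa [add_comm (v * a)] at h7)
  refine ⟨j, h1, h2, ?_⟩
  rwa [add_comm (b • _)] at h3

lemma Good.scale {u v w : ℕ} (k u' v' w' : ℕ) (h : Good u v w) (hk : ¬ 7 ∣ k)
    (hu : k * u' % 7 = u) (hv : k * v' % 7 = v) (hw : k * w' % 7 = w) : Good u' v' w' := by
  intro a b c h7
  have e : ∀ j x y : ℕ, k * x % 7 = y → j * k % 7 * x % 7 = j * y % 7 := by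
    intro j x y hy
    rw [← hy]
    conv_lhs => rw [Nat.mod_mul_mod, mul_assoc]
    rw [Nat.mul_mod, Nat.mul_mod j (k * x % 7), Nat.mod_mod]
  obtain ⟨j, h1, h2, h3⟩ := h a b c (by
    have h8 : u * a + v * b + w * c ≡ k * (u' * a + v' * b + w' * c) [MOD 7] := by
      have q : ∀ x y z : ℕ, k * x % 7 = y → y * z ≡ k * x * z [MOD 7] := by
        intro x y z hy
        apply Nat.ModEq.mul_right
        rw [← hy]
        exact Nat.mod_modEq _ _
      have := ((q u' u a hu).add (q v' v b hv)).add (q w' w c hw)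
      refine this.trans ?_
      rw [show k * u' * a + k * v' * b + k * w' * c = k * (u' * a + v' * b + w' * c) by ring]
    rw [← Nat.modEq_zero_iff_dvd]
    exact h8.trans (Nat.modEq_zero_iff_dvd.2 (Dvd.dvd.mul_left h7 k)))
  refine ⟨j * k % 7, ?_, Nat.mod_lt _ (by norm_num), ?_⟩
  · rw [Nat.one_le_iff_ne_zero]
    intro h0
    have : 7 ∣ j * k := Nat.dvd_of_mod_eq_zero h0
    rcases (Nat.Prime.dvd_mul (by norm_num)).1 this with h | h
    · have := Nat.le_of_dvd h1 h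
      omega
    · exact hk h
  · rw [e j u' u hu, e j v' v hv, e j w' w hw]
    exact h3

lemma tc_123 : Good 1 2 3 := tc_good2
lemma tc_124 : Good 1 2 4 := tc_good1
lemma tc_653 : Good 6 5 3 := tc_good1.scale 6 _ _ _ (by norm_num) rfl rfl rfl
lemma tc_654 : Good 6 5 4 := tc_good2.scale 6 _ _ _ (by norm_num) rfl rfl rfl
/-- `3 * (1, 5, 3) = (3, 1, 2)` -/
lemma tc_153 : Good 1 5 3 :=
  tc_good2.rot.rot.scale 3 _ _ _ (by norm_num) rfl rfl rfl
lemma tc_624 : Good 6 2 4 := tc_153.scale 6 _ _ _ (by norm_num) rfl rfl rfl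
/-- `2 * (1, 5, 4) = (2, 3, 1)` -/
lemma tc_154 : Good 1 5 4 :=
  tc_good2.rot.scale 2 _ _ _ (by norm_num) rfl rfl rfl
lemma tc_623 : Good 6 2 3 := tc_154.scale 6 _ _ _ (by norm_num) rfl rfl rfl

/-- the counts of the residues -/
lemma tc_cnt (S : Multiset ℕ) (hS : ∀ x ∈ S, ¬ 7 ∣ x) :
    ∃ n1 n2 n3 n4 n5 n6 : ℕ,
      (n1 * 1 + n2 * 2 + n3 * 3 + n4 * 4 + n5 * 5 + n6 * 6) % 7 = S.sum % 7 ∧
      ∀ j, S.map (fun x => (j * x) % 7) =
        n1 • ({j * 1 % 7} : Multiset ℕ) + n2 • ({j * 2 % 7} : Multiset ℕ) +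
        n3 • ({j * 3 % 7} : Multiset ℕ) + n4 • ({j * 4 % 7} : Multiset ℕ) +
        n5 • ({j * 5 % 7} : Multiset ℕ) + n6 • ({j * 6 % 7} : Multiset ℕ) := by
  induction S using Multiset.induction_on with
  | empty => exact ⟨0, 0, 0, 0, 0, 0, by simp, fun j => by simp⟩
  | cons x S ih =>
    obtain ⟨n1, n2, n3, n4, n5, n6, hs, hm⟩ := ih fun y hy => hS y (Multiset.mem_cons_of_mem hy)
    have hx : ¬ 7 ∣ x := hS x (Multiset.mem_cons_self _ _)
    have key : ∀ j i : ℕ, x % 7 = i → (j * x) % 7 = j * i % 7 := by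
      intro j i hi
      rw [Nat.mul_mod, hi, Nat.mul_mod j i]
      rw [← hi, Nat.mod_mod]
    have hc : x % 7 = 1 ∨ x % 7 = 2 ∨ x % 7 = 3 ∨ x % 7 = 4 ∨ x % 7 = 5 ∨ x % 7 = 6 := by omega
    rcases hc with h | h | h | h | h | h
    · refine ⟨n1 + 1, n2, n3, n4, n5, n6, ?_, ?_⟩
      · rw [Multiset.sum_cons]; omega
      · intro j
        rw [Multiset.map_cons, hm j, key j _ h, ← Multiset.singleton_add]
        module
    · refine ⟨n1, n2 + 1, n3, n4, n5, n6, ?_, ?_⟩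
      · rw [Multiset.sum_cons]; omega
      · intro j
        rw [Multiset.map_cons, hm j, key j _ h, ← Multiset.singleton_add]
        module
    · refine ⟨n1, n2, n3 + 1, n4, n5, n6, ?_, ?_⟩
      · rw [Multiset.sum_cons]; omega
      · intro j
        rw [Multiset.map_cons, hm j, key j _ h, ← Multiset.singleton_add]
        module
    · refine ⟨n1, n2, n3, n4 + 1, n5, n6, ?_, ?_⟩
      · rw [Multiset.sum_cons]; omega
      · intro j
        rw [Multiset.map_cons, hm j, key j _ h, ← Multiset.singleton_add]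
        module
    · refine ⟨n1, n2, n3, n4, n5 + 1, n6, ?_, ?_⟩
      · rw [Multiset.sum_cons]; omega
      · intro j
        rw [Multiset.map_cons, hm j, key j _ h, ← Multiset.singleton_add]
        module
    · refine ⟨n1, n2, n3, n4, n5, n6 + 1, ?_, ?_⟩
      · rw [Multiset.sum_cons]; omega
      · intro j
        rw [Multiset.map_cons, hm j, key j _ h, ← Multiset.singleton_add]
        module

/-- an opposite pair is a block -/
lemma tc_pair {j i i' : ℕ} (hj : 1 ≤ j) (hj' : j < 7) (hi : 1 ≤ i) (hi' : i < 7)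
    (h : i + i' = 7) (n : ℕ) :
    Dec 7 (n • (({j * i % 7} : Multiset ℕ) + ({j * i' % 7} : Multiset ℕ))) := by
  apply tc_blk
  obtain rfl : i' = 7 - i := by omega
  interval_cases j <;> interval_cases i <;> rfl

/-- Degree 7. -/
theorem dec_seven (S : Multiset ℕ) (hS : ∀ x ∈ S, ¬ 7 ∣ x) (hsum : 7 ∣ S.sum) :
    ∃ j, 1 ≤ j ∧ j < 7 ∧ Dec 7 (S.map (fun x => (j * x) % 7)) := by
  obtain ⟨n1, n2, n3, n4, n5, n6, hs, hm⟩ := tc_cnt S hS
  have h0 : (n1 * 1 + n2 * 2 + n3 * 3 + n4 * 4 + n5 * 5 + n6 * 6) % 7 = 0 := by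
    rw [hs]; omega
  clear hs
  -- the general step
  have step : ∀ u v w u' v' w' a b c p q r : ℕ, Good u v w → u + u' = 7 → v + v' = 7 →
      w + w' = 7 → 1 ≤ u → u < 7 → 1 ≤ v → v < 7 → 1 ≤ w → w < 7 → 7 ∣ u * a + v * b + w * c →
      (∀ j, S.map (fun x => (j * x) % 7) =
        (a • ({j * u % 7} : Multiset ℕ) + b • ({j * v % 7} : Multiset ℕ) +
          c • ({j * w % 7} : Multiset ℕ)) +
        p • (({j * u % 7} : Multiset ℕ) + ({j * u' % 7} : Multiset ℕ)) +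
        q • (({j * v % 7} : Multiset ℕ) + ({j * v' % 7} : Multiset ℕ)) +
        r • (({j * w % 7} : Multiset ℕ) + ({j * w' % 7} : Multiset ℕ))) →
      ∃ j, 1 ≤ j ∧ j < 7 ∧ Dec 7 (S.map (fun x => (j * x) % 7)) := by
    intro u v w u' v' w' a b c p q r hg hu hv hw hu1 hu2 hv1 hv2 hw1 hw2 h7 he
    obtain ⟨j, h1, h2, h3⟩ := hg a b c h7
    refine ⟨j, h1, h2, ?_⟩
    rw [he j]
    exact ((h3.add (tc_pair h1 h2 hu1 hu2 hu p)).add (tc_pair h1 h2 hv1 hv2 hv q)).add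
      (tc_pair h1 h2 hw1 hw2 hw r)
  rcases le_total n6 n1 with h16 | h16 <;> rcases le_total n5 n2 with h25 | h25 <;>
    rcases le_total n4 n3 with h34 | h34
  · obtain ⟨a, rfl⟩ := Nat.exists_eq_add_of_le h16
    obtain ⟨b, rfl⟩ := Nat.exists_eq_add_of_le h25
    obtain ⟨c, rfl⟩ := Nat.exists_eq_add_of_le h34
    refine step 1 2 3 6 5 4 a b c n6 n5 n4 tc_123 rfl rfl rfl (by norm_num) (by norm_num)
      (by norm_num) (by norm_num) (by norm_num) (by norm_num) (by omega) (fun j => ?_)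
    rw [hm j]; module
  · obtain ⟨a, rfl⟩ := Nat.exists_eq_add_of_le h16
    obtain ⟨b, rfl⟩ := Nat.exists_eq_add_of_le h25
    obtain ⟨c, rfl⟩ := Nat.exists_eq_add_of_le h34
    refine step 1 2 4 6 5 3 a b c n6 n5 n3 tc_124 rfl rfl rfl (by norm_num) (by norm_num)
      (by norm_num) (by norm_num) (by norm_num) (by norm_num) (by omega) (fun j => ?_)
    rw [hm j]; module
  · obtain ⟨a, rfl⟩ := Nat.exists_eq_add_of_le h16
    obtain ⟨b, rfl⟩ := Nat.exists_eq_add_of_le h25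
    obtain ⟨c, rfl⟩ := Nat.exists_eq_add_of_le h34
    refine step 1 5 3 6 2 4 a b c n6 n2 n4 tc_153 rfl rfl rfl (by norm_num) (by norm_num)
      (by norm_num) (by norm_num) (by norm_num) (by norm_num) (by omega) (fun j => ?_)
    rw [hm j]; module
  · obtain ⟨a, rfl⟩ := Nat.exists_eq_add_of_le h16
    obtain ⟨b, rfl⟩ := Nat.exists_eq_add_of_le h25
    obtain ⟨c, rfl⟩ := Nat.exists_eq_add_of_le h34
    refine step 1 5 4 6 2 3 a b c n6 n2 n3 tc_154 rfl rfl rfl (by norm_num) (by norm_num)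
      (by norm_num) (by norm_num) (by norm_num) (by norm_num) (by omega) (fun j => ?_)
    rw [hm j]; module
  · obtain ⟨a, rfl⟩ := Nat.exists_eq_add_of_le h16
    obtain ⟨b, rfl⟩ := Nat.exists_eq_add_of_le h25
    obtain ⟨c, rfl⟩ := Nat.exists_eq_add_of_le h34
    refine step 6 2 3 1 5 4 a b c n1 n5 n4 tc_623 rfl rfl rfl (by norm_num) (by norm_num)
      (by norm_num) (by norm_num) (by norm_num) (by norm_num) (by omega) (fun j => ?_)
    rw [hm j]; module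
  · obtain ⟨a, rfl⟩ := Nat.exists_eq_add_of_le h16
    obtain ⟨b, rfl⟩ := Nat.exists_eq_add_of_le h25
    obtain ⟨c, rfl⟩ := Nat.exists_eq_add_of_le h34
    refine step 6 2 4 1 5 3 a b c n1 n5 n3 tc_624 rfl rfl rfl (by norm_num) (by norm_num)
      (by norm_num) (by norm_num) (by norm_num) (by norm_num) (by omega) (fun j => ?_)
    rw [hm j]; module
  · obtain ⟨a, rfl⟩ := Nat.exists_eq_add_of_le h16
    obtain ⟨b, rfl⟩ := Nat.exists_eq_add_of_le h25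
    obtain ⟨c, rfl⟩ := Nat.exists_eq_add_of_le h34
    refine step 6 5 3 1 2 4 a b c n1 n2 n4 tc_653 rfl rfl rfl (by norm_num) (by norm_num)
      (by norm_num) (by norm_num) (by norm_num) (by norm_num) (by omega) (fun j => ?_)
    rw [hm j]; module
  · obtain ⟨a, rfl⟩ := Nat.exists_eq_add_of_le h16
    obtain ⟨b, rfl⟩ := Nat.exists_eq_add_of_le h25
    obtain ⟨c, rfl⟩ := Nat.exists_eq_add_of_le h34
    refine step 6 5 4 1 2 3 a b c n1 n2 n3 tc_654 rfl rfl rfl (by norm_num) (by norm_num)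
      (by norm_num) (by norm_num) (by norm_num) (by norm_num) (by omega) (fun j => ?_)
    rw [hm j]; module

end Pool.Agent.Helper70.HB
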