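import Mathlib
import Pool.Agent.Helper70.HB.Defs

namespace Pool.Agent.Helper70.HB

open Pool.Agent.Helper70.HA

/-- A tight partition of a klt configuration with total weight less than `n + 1` is good. -/
theorem good2_of_tight {E : Type*} [Fintype E] [DecidableEq E] {r : Finset E → ℕ} (hr : IsRk r)
    {n d : ℕ} (hd : 2 ≤ d) (hrn : ∀ S, r S ≤ n + 1) (m : E → ℕ) (hm : ∀ e, ¬ d ∣ m e)
    (hm1 : ∃ e, (m e).Coprime d) (j : ℕ) (hj : j.Coprime d)
    (P : Finpartition (Finset.univ : Finset E))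
    (hP : ∀ p ∈ P.parts, ∑ e ∈ p, (j * m e) % d = d)
    (hklt : ∀ S : Finset E, S.Nonempty → r S ≤ n → ∑ e ∈ S, wt d m j e < d * r S)
    (hw : ∑ e, wt d m j e < d * (n + 1)) :
    Good2 d m r Finset.univ := by
  have hnd : ∀ e, ¬ d ∣ j * m e := by
    intro e h
    exact hm e (hj.symm.dvd_of_dvd_mul_left h)
  have hwt : ∀ e, wt d m j e + (j * m e) % d = d := by
    intro e
    rw [wt, if_neg (hnd e)]
    have := Nat.mod_lt (j * m e) (by omega : 0 < d)
    omega
  have hdisj : ∀ G ⊆ P.parts, ∀ p ∈ G, ∀ q ∈ G, p ≠ q → Disjoint p q := by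
    intro G hG p hp q hq hpq
    exact P.disjoint (Finset.mem_coe.mpr (hG hp)) (Finset.mem_coe.mpr (hG hq)) hpq
  have hcG : ∀ G ⊆ P.parts, (G.sup id).card = ∑ p ∈ G, p.card := by
    intro G hG
    rw [Finset.sup_eq_biUnion]
    exact Finset.card_biUnion (hdisj G hG)
  have hwG : ∀ G ⊆ P.parts, ∑ e ∈ G.sup id, wt d m j e + d * G.card = d * (G.sup id).card := by
    intro G hG
    have h1 : ∑ e ∈ G.sup id, (wt d m j e + (j * m e) % d) = d * (G.sup id).card := by
      rw [Finset.sum_congr rfl (fun e _ => hwt e), Finset.sum_const, smul_eq_mul, mul_comm]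
    have h2 : ∑ e ∈ G.sup id, (j * m e) % d = d * G.card := by
      rw [Finset.sup_eq_biUnion, Finset.sum_biUnion (by
        intro p hp q hq hpq
        exact hdisj G hG p hp q hq hpq)]
      have h3 : ∀ p ∈ G, ∑ e ∈ id p, (j * m e) % d = d := fun p hp => hP p (hG hp)
      rw [Finset.sum_congr rfl h3, Finset.sum_const, smul_eq_mul, mul_comm]
    rw [Finset.sum_add_distrib, h2] at h1
    exact h1
  have hb : ∀ G ⊆ P.parts, G.Nonempty → (G.sup id).card < r (G.sup id) + G.card := by
    intro G hG hGne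
    have hne : (G.sup id).Nonempty := by
      obtain ⟨q, hq⟩ := hGne
      obtain ⟨a, ha⟩ := P.nonempty_of_mem_parts (hG hq)
      exact ⟨a, (Finset.le_sup (f := id) hq : q ≤ G.sup id) ha⟩
    have h1 := hwG G hG
    have h2 : ∑ e ∈ G.sup id, wt d m j e < d * r (G.sup id) := by
      rcases Nat.lt_or_ge n (r (G.sup id)) with h | h
      · have h3 : r (G.sup id) = n + 1 := le_antisymm (hrn _) h
        rw [h3]
        refine lt_of_le_of_lt ?_ hw
        exact Finset.sum_le_sum_of_subset (Finset.subset_univ _)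
      · exact hklt _ hne h
    have h3 : d * (G.sup id).card < d * (r (G.sup id) + G.card) := by
      rw [mul_add]
      omega
    exact Nat.lt_of_mul_lt_mul_left h3
  refine ⟨P, ?_, ?_, ?_⟩
  · intro p hp
    have h1 : d ∣ ∑ e ∈ p, (j * m e) := by
      rw [Nat.dvd_iff_mod_eq_zero, Finset.sum_nat_mod, hP p hp, Nat.mod_self]
    rw [← Finset.mul_sum] at h1
    exact hj.symm.dvd_of_dvd_mul_left h1
  · intro G hG hGne
    have h1 := hb G hG hGne
    rw [hcG G hG] at h1
    exact lt_of_le_of_lt (Finset.sum_le_sum fun p _ => hr.le_card p) h1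
  · obtain ⟨e, he⟩ := hm1
    have hp : P.part e ∈ P.parts := P.part_mem.2 (Finset.mem_univ e)
    have hep : e ∈ P.part e := P.mem_part (Finset.mem_univ e)
    refine ⟨P.part e, hp, e, hep, ?_, he⟩
    have h1 := hb {P.part e} (Finset.singleton_subset_iff.mpr hp) (Finset.singleton_nonempty _)
    rw [Finset.sup_singleton, Finset.card_singleton, id] at h1
    have h2 := hr.le_card ((P.part e).erase e)
    rw [Finset.card_erase_of_mem hep] at h2
    have h3 : 0 < (P.part e).card := Finset.card_pos.mpr ⟨e, hep⟩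
    omega

end Pool.Agent.Helper70.HB
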